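import Mathlib

/-!
# LV-PART: chains of blocks
-/

set_option autoImplicit false

open Finset

namespace Pool.Agent.W315.LV

theorem chain_fun {R : ℕ → ℕ → Prop} {x y : ℕ} (h : Relation.ReflTransGen R x y) :
    ∃ (L : ℕ) (b : ℕ → ℕ), b 0 = x ∧ b L = y ∧ ∀ i, i < L → R (b i) (b (i + 1)) := by
  induction h with
  | refl => exact ⟨0, fun _ => x, rfl, rfl, fun i hi => absurd hi (Nat.not_lt_zero _)⟩
  | @tail y' w' _ hR ih =>
    obtain ⟨L, b, h0, hL, hb⟩ := ih
    refine ⟨L + 1, fun i => if i ≤ L then b i else w', ?_, ?_, ?_⟩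
    · simp [h0]
    · simp
    · intro i hi
      rcases Nat.lt_or_ge i L with h | h
      · have h1 : i ≤ L := h.le
        have h2 : i + 1 ≤ L := h
        simp only [h1, h2, if_true]
        exact hb i h
      · have h1 : i = L := by omega
        subst h1
        simp only [le_refl, if_true]
        rw [if_neg (by omega), hL]
        exact hR

theorem fun_chain {R : ℕ → ℕ → Prop} {b : ℕ → ℕ} {L : ℕ} (h : ∀ i, i < L → R (b i) (b (i + 1))) :
    Relation.ReflTransGen R (b 0) (b L) := by
  induction L with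
  | zero => exact Relation.ReflTransGen.refl
  | succ L ih =>
    exact (ih (fun i hi => h i (by omega))).tail (h L (by omega))

/-- number of primes in a block -/
noncomputable def cnt (x y : ℕ) : ℝ := (((Ioc x y).filter Nat.Prime).card : ℝ)

/-- admissible block -/
def Rz (N : ℕ) (E S U : ℝ) (z : ℕ → ℕ) (x y : ℕ) : Prop :=
  x < y ∧ ((y : ℝ) - x ≤ E * cnt x y) ∧ ((y : ℝ) - x ≤ S) ∧
  (∀ m, m < 2 * N → z m ≤ x ∨ y ≤ z m) ∧
  ((y : ℝ) - x ≤ U ∨ ∀ m, m < 2 * N →
    ((y : ℝ) - x ≤ E * |(x : ℝ) - z m| ∧ (y : ℝ) - x ≤ E * |(y : ℝ) - z m|))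

theorem block (N Y : ℕ) (E E₂ S U : ℝ) (z X : ℕ → ℕ) (x y : ℕ) (hxy : x < y) (hY : 0 < Y)
    (hlen : (y : ℝ) - x ≤ 2 * Y) (hS : 2 * (Y : ℝ) ≤ S) (hcnt : (y : ℝ) - x ≤ E * cnt x y)
    (hE₂ : 0 ≤ E₂) (hE : 2 * E₂ ≤ E)
    (hz : ∀ m, m < 2 * N → (Y : ℝ) ≤ E₂ * ((z m : ℝ) - X m) ∧
      (Y : ℝ) ≤ E₂ * ((X m : ℝ) + Y - z m))
    (hm : ∀ m, m < 2 * N → (y ≤ X m ∨ X m + Y ≤ x) ∨ ((z m ≤ x ∨ y ≤ z m) ∧
      ((y : ℝ) - x ≤ U ∨ ((y : ℝ) - x ≤ E * |(x : ℝ) - z m| ∧ (y : ℝ) - x ≤ E * |(y : ℝ) - z m|)))) :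
    Rz N E S U z x y := by
  have hYr : (0 : ℝ) < Y := by exact_mod_cast hY
  have hzz : ∀ m, m < 2 * N → (X m : ℝ) < z m ∧ (z m : ℝ) < X m + Y := by
    intro m hm'
    obtain ⟨h1, h2⟩ := hz m hm'
    constructor
    · by_contra hc
      push Not at hc
      have : E₂ * ((z m : ℝ) - X m) ≤ 0 := mul_nonpos_of_nonneg_of_nonpos hE₂ (by linarith)
      linarith
    · by_contra hc
      push Not at hc
      have : E₂ * ((X m : ℝ) + Y - z m) ≤ 0 := mul_nonpos_of_nonneg_of_nonpos hE₂ (by linarith)
      linarith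
  refine ⟨hxy, hcnt, hlen.trans hS, ?_, ?_⟩
  · intro m hm'
    rcases hm m hm' with (h | h) | h
    · right
      have := (hzz m hm').1
      have h1 : X m < z m := by exact_mod_cast this
      omega
    · left
      have := (hzz m hm').2
      have h1 : z m < X m + Y := by exact_mod_cast this
      omega
    · exact h.1
  · by_cases hU : (y : ℝ) - x ≤ U
    · exact Or.inl hU
    · right
      intro m hm'
      rcases hm m hm' with (h | h) | h
      · have h0 : (y : ℝ) ≤ X m := by exact_mod_cast h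
        have h1 := (hzz m hm').1
        have hxy' : (x : ℝ) < y := by exact_mod_cast hxy
        have hd := (hz m hm').1
        have key : (y : ℝ) - x ≤ E * ((z m : ℝ) - X m) := by
          calc (y : ℝ) - x ≤ 2 * Y := hlen
            _ ≤ 2 * (E₂ * ((z m : ℝ) - X m)) := by linarith
            _ = (2 * E₂) * ((z m : ℝ) - X m) := by ring
            _ ≤ E * ((z m : ℝ) - X m) := mul_le_mul_of_nonneg_right hE (by linarith)
        have hE0 : 0 ≤ E := by linarith
        constructor
        · rw [abs_sub_comm, abs_of_nonneg (by linarith)]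
          exact key.trans (mul_le_mul_of_nonneg_left (by linarith) hE0)
        · rw [abs_sub_comm, abs_of_nonneg (by linarith)]
          exact key.trans (mul_le_mul_of_nonneg_left (by linarith) hE0)
      · have h0 : (X m : ℝ) + Y ≤ x := by exact_mod_cast h
        have h1 := (hzz m hm').2
        have hxy' : (x : ℝ) < y := by exact_mod_cast hxy
        have hd := (hz m hm').2
        have key : (y : ℝ) - x ≤ E * ((X m : ℝ) + Y - z m) := by
          calc (y : ℝ) - x ≤ 2 * Y := hlen
            _ ≤ 2 * (E₂ * ((X m : ℝ) + Y - z m)) := by linarith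
            _ = (2 * E₂) * ((X m : ℝ) + Y - z m) := by ring
            _ ≤ E * ((X m : ℝ) + Y - z m) := mul_le_mul_of_nonneg_right hE (by linarith)
        have hE0 : 0 ≤ E := by linarith
        constructor
        · rw [abs_of_nonneg (by linarith)]
          exact key.trans (mul_le_mul_of_nonneg_left (by linarith) hE0)
        · rw [abs_of_nonneg (by linarith)]
          exact key.trans (mul_le_mul_of_nonneg_left (by linarith) hE0)
      · rcases h.2 with h2 | h2
        · exact absurd h2 hU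
        · exact h2

/-- The output of the nested intervals. -/
def NestOut (E₂ U : ℝ) (X Y z : ℕ) : Prop := ∃ (L : ℕ) (b : ℕ → ℕ) (i₀ : ℕ), i₀ ≤ L ∧ b i₀ = z ∧
  b 0 = X ∧ b L = X + Y ∧ (∀ i, i < L → b i < b (i + 1)) ∧
  (∀ i, i < L → ((b (i + 1) : ℝ) - b i) ≤ E₂ * cnt (b i) (b (i + 1))) ∧
  (∀ i, i < L → ((b (i + 1) : ℝ) - b i) ≤ U ∨
    (((b (i + 1) : ℝ) - b i) ≤ E₂ * |(b i : ℝ) - z| ∧
      ((b (i + 1) : ℝ) - b i) ≤ E₂ * |(b (i + 1) : ℝ) - z|))

theorem mono_le {b : ℕ → ℕ} {L : ℕ} (h : ∀ i, i < L → b i < b (i + 1)) :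
    ∀ i j, i ≤ j → j ≤ L → b i ≤ b j := by
  intro i j hij
  induction j, hij using Nat.le_induction with
  | base => intro _; exact le_rfl
  | succ j hj ih =>
    intro hL
    exact (ih (by omega)).trans (h j (by omega)).le

theorem core (N Y len T : ℕ) (E E₂ S U : ℝ) (hN : 1 ≤ N) (hY : 0 < Y) (h16 : 16 * N * Y ≤ len)
    (hS : 2 * (Y : ℝ) ≤ S) (hE₂ : 0 ≤ E₂) (hE : 2 * E₂ ≤ E) (z : ℕ → ℕ)
    (hz : ∀ m, m < 2 * N → (Y : ℝ) ≤ E₂ * ((z m : ℝ) - ((T + ((2 * m + 1) * len / (4 * N * Y)) * Y : ℕ) : ℝ)) ∧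
      (Y : ℝ) ≤ E₂ * (((T + ((2 * m + 1) * len / (4 * N * Y)) * Y : ℕ) : ℝ) + Y - z m))
    (hnest : ∀ m, m < 2 * N → NestOut E₂ U (T + ((2 * m + 1) * len / (4 * N * Y)) * Y) Y (z m))
    (hcnt : ∀ x y : ℕ, T ≤ x → y ≤ T + len → x + Y ≤ y → y ≤ x + 2 * Y → (y : ℝ) - x ≤ E * cnt x y) :
    Relation.ReflTransGen (Rz N E S U z) T (T + len) ∧
      ∀ m, m < 2 * N → |(z m : ℝ) - ((T : ℝ) + (2 * m + 1) / (4 * N) * len)| ≤ Y ∧
        T ≤ z m ∧ z m ≤ T + len := by
  set k : ℕ → ℕ := fun m => (2 * m + 1) * len / (4 * N * Y) with hk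
  set X : ℕ → ℕ := fun m => T + k m * Y with hX
  set M := len / Y with hM
  have h4 : 0 < 4 * N * Y := by positivity
  have hk1 : ∀ m, k m * (4 * N * Y) ≤ (2 * m + 1) * len := fun m => Nat.div_mul_le_self _ _
  have hk2 : ∀ m, (2 * m + 1) * len < (k m + 1) * (4 * N * Y) := by
    intro m
    have := Nat.lt_div_mul_add (a := (2 * m + 1) * len) h4
    rw [add_mul (k m) 1, one_mul]
    exact this
  have hkM : ∀ m, m < 2 * N → k m + 2 ≤ M := by
    intro m hm
    rw [hM, Nat.le_div_iff_mul_le hY]
    have h1 := hk1 m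
    have h2 : (2 * m + 1) * len ≤ (4 * N - 1) * len := Nat.mul_le_mul_right _ (by omega)
    have h3 : (4 * N - 1) * len + len = 4 * N * len := by
      rw [Nat.sub_mul, one_mul]
      apply Nat.sub_add_cancel
      nlinarith
    have h5 : 4 * N * ((k m + 2) * Y) ≤ 4 * N * len := by
      calc 4 * N * ((k m + 2) * Y) = k m * (4 * N * Y) + 8 * N * Y := by ring
        _ ≤ (2 * m + 1) * len + 8 * N * Y := by omega
        _ ≤ (4 * N - 1) * len + len := by nlinarith
        _ = _ := h3
    exact Nat.le_of_mul_le_mul_left h5 (by omega)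
  have hkinj : ∀ m m', m < m' → k m < k m' := by
    intro m m' hmm
    by_contra hc
    push Not at hc
    have h1 := hk2 m'
    have h2 := hk1 m
    have h3 : (k m' + 1) * (4 * N * Y) ≤ (k m + 1) * (4 * N * Y) := Nat.mul_le_mul_right _ (by omega)
    have h5 : (2 * (m + 1) + 1) * len ≤ (2 * m' + 1) * len := Nat.mul_le_mul_right _ (by omega)
    have h6 : 4 * N * Y ≤ len := by nlinarith
    have hlen : 0 < len := by
      have : 0 < 16 * N * Y := by positivity
      omega
    nlinarith
  -- intervals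
  have hstep : ∀ j, j + 2 ≤ M → Relation.ReflTransGen (Rz N E S U z) (T + j * Y) (T + (j + 1) * Y) := by
    intro j hj
    have hjlen : (j + 1) * Y ≤ len := by
      have : (j + 1) * Y ≤ M * Y := Nat.mul_le_mul_right _ (by omega)
      exact this.trans (Nat.div_mul_le_self _ _)
    by_cases hsp : ∃ m, m < 2 * N ∧ k m = j
    · obtain ⟨m, hm, hkm⟩ := hsp
      obtain ⟨L, b, i₀, hi₀, hbi, hb0, hbL, hmono, hmany, hfar⟩ := hnest m hm
      have hb0' : b 0 = T + j * Y := by rw [hb0, ← hkm]
      have hbL' : b L = T + (j + 1) * Y := by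
        rw [hbL, ← hkm]
        ring
      rw [← hb0', ← hbL']
      apply fun_chain
      intro i hi
      have hle0 : b 0 ≤ b i := mono_le hmono 0 i (Nat.zero_le _) hi.le
      have hleL : b (i + 1) ≤ b L := mono_le hmono (i + 1) L hi le_rfl
      have hlenY : b L = b 0 + Y := by rw [hb0', hbL']; ring
      have hbl : (b (i + 1) : ℝ) - b i ≤ Y := by
        have h1 : b (i + 1) ≤ b i + Y := by omega
        have h2 : (b (i + 1) : ℝ) ≤ b i + Y := by exact_mod_cast h1
        linarith
      have hYr : (0 : ℝ) < Y := by exact_mod_cast hY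
      have hEE : E₂ ≤ E := by linarith
      have hpos : (0 : ℝ) < (b (i + 1) : ℝ) - b i := by
        have : (b i : ℝ) < b (i + 1) := by exact_mod_cast hmono i hi
        linarith
      refine block N Y E E₂ S U z X _ _ (hmono i hi) hY (by linarith) hS ?_ hE₂ hE hz ?_
      · exact (hmany i hi).trans (mul_le_mul_of_nonneg_right hEE (Nat.cast_nonneg _))
      · intro m' hm'
        rcases lt_trichotomy m m' with hlt | heq | hgt
        · left; left
          have := hkinj m m' hlt
          have h1 : (j + 1) * Y ≤ k m' * Y := Nat.mul_le_mul_right _ (by omega)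
          show b (i + 1) ≤ T + k m' * Y
          omega
        · subst heq
          right
          constructor
          · rcases Nat.lt_or_ge i i₀ with h | h
            · right
              rw [← hbi]
              exact mono_le hmono (i + 1) i₀ h hi₀
            · left
              rw [← hbi]
              exact mono_le hmono i₀ i h hi.le
          · rcases hfar i hi with h | h
            · exact Or.inl h
            · right
              exact ⟨h.1.trans (mul_le_mul_of_nonneg_right hEE (abs_nonneg _)),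
                h.2.trans (mul_le_mul_of_nonneg_right hEE (abs_nonneg _))⟩
        · left; right
          have := hkinj m' m hgt
          have h1 : (k m' + 1) * Y ≤ j * Y := Nat.mul_le_mul_right _ (by omega)
          show T + k m' * Y + Y ≤ b i
          have h2 : (k m' + 1) * Y = k m' * Y + Y := by ring
          omega
    · push Not at hsp
      apply Relation.ReflTransGen.single
      have e1 : (j + 1) * Y = j * Y + Y := by ring
      have hx : T + j * Y < T + (j + 1) * Y := by omega
      refine block N Y E E₂ S U z X _ _ hx hY ?_ hS ?_ hE₂ hE hz ?_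
      · rw [e1]
        push_cast
        have hYr : (0 : ℝ) < Y := by exact_mod_cast hY
        linarith
      · exact hcnt _ _ (by omega) (by omega) (by omega) (by omega)
      · intro m hm
        left
        rcases Nat.lt_or_ge (k m) j with h | h
        · right
          have h1 : (k m + 1) * Y ≤ j * Y := Nat.mul_le_mul_right _ (by omega)
          show T + k m * Y + Y ≤ T + j * Y
          have h2 : (k m + 1) * Y = k m * Y + Y := by ring
          omega
        · left
          have h0 := hsp m hm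
          have h1 : (j + 1) * Y ≤ k m * Y := Nat.mul_le_mul_right _ (by omega)
          show T + (j + 1) * Y ≤ T + k m * Y
          omega
  have hM2 : 2 ≤ M := by
    have := hkM 0 (by omega)
    omega
  have hchain : ∀ j, j + 1 ≤ M → Relation.ReflTransGen (Rz N E S U z) T (T + j * Y) := by
    intro j
    induction j with
    | zero => intro _; simpa using Relation.ReflTransGen.refl
    | succ j ih =>
      intro hj
      exact (ih (by omega)).trans (hstep j (by omega))
  have hMlen : M * Y ≤ len := Nat.div_mul_le_self _ _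
  have hMlen2 : len < M * Y + Y := Nat.lt_div_mul_add hY
  have hM1 : (M - 1) * Y + Y = M * Y := by
    rw [Nat.sub_mul, one_mul]
    apply Nat.sub_add_cancel
    nlinarith
  have hlast : Rz N E S U z (T + (M - 1) * Y) (T + len) := by
    refine block N Y E E₂ S U z X _ _ (by omega) hY ?_ hS ?_ hE₂ hE hz ?_
    · have h1 : len ≤ (M - 1) * Y + 2 * Y := by omega
      have h2 : (len : ℝ) ≤ (((M - 1) * Y : ℕ) : ℝ) + 2 * Y := by exact_mod_cast h1
      push_cast at h2 ⊢
      linarith
    · exact hcnt _ _ (by omega) le_rfl (by omega) (by omega)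
    · intro m hm
      left; right
      have := hkM m hm
      have h1 : (k m + 1) * Y ≤ (M - 1) * Y := Nat.mul_le_mul_right _ (by omega)
      show T + k m * Y + Y ≤ T + (M - 1) * Y
      have h2 : (k m + 1) * Y = k m * Y + Y := by ring
      omega
  refine ⟨(hchain (M - 1) (by omega)).tail hlast, ?_⟩
  intro m hm
  have hYr : (0 : ℝ) < Y := by exact_mod_cast hY
  have hNr : (0 : ℝ) < N := by exact_mod_cast hN
  obtain ⟨h1, h2⟩ := hz m hm
  have hlo : ((T + k m * Y : ℕ) : ℝ) < z m := by
    by_contra hc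
    push Not at hc
    have : E₂ * ((z m : ℝ) - ((T + k m * Y : ℕ) : ℝ)) ≤ 0 :=
      mul_nonpos_of_nonneg_of_nonpos hE₂ (by linarith)
    linarith
  have hhi : (z m : ℝ) < ((T + k m * Y : ℕ) : ℝ) + Y := by
    by_contra hc
    push Not at hc
    have : E₂ * (((T + k m * Y : ℕ) : ℝ) + Y - z m) ≤ 0 :=
      mul_nonpos_of_nonneg_of_nonpos hE₂ (by linarith)
    linarith
  have hp1 : (k m : ℝ) * Y ≤ (2 * m + 1) / (4 * N) * len := by
    have := hk1 m
    have h3 : ((k m * (4 * N * Y) : ℕ) : ℝ) ≤ (((2 * m + 1) * len : ℕ) : ℝ) := by exact_mod_cast this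
    push_cast at h3
    rw [div_mul_eq_mul_div, le_div_iff₀ (by positivity)]
    linarith
  have hp2 : (2 * m + 1) / (4 * N) * (len : ℝ) ≤ (k m : ℝ) * Y + Y := by
    have := hk2 m
    have h3 : (((2 * m + 1) * len : ℕ) : ℝ) ≤ (((k m + 1) * (4 * N * Y) : ℕ) : ℝ) := by
      exact_mod_cast this.le
    push_cast at h3
    rw [div_mul_eq_mul_div, div_le_iff₀ (by positivity)]
    linarith
  push_cast at hlo hhi
  refine ⟨?_, ?_, ?_⟩
  · rw [abs_le]
    constructor <;> linarith
  · have : (T : ℝ) ≤ z m := by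
      have : (0 : ℝ) ≤ (k m : ℝ) * Y := by positivity
      linarith
    exact_mod_cast this
  · have h3 := hkM m hm
    have h5 : k m * Y + Y ≤ len := by
      have : (k m + 1) * Y ≤ M * Y := Nat.mul_le_mul_right _ (by omega)
      have h6 : (k m + 1) * Y = k m * Y + Y := by ring
      omega
    have h6 : (k m : ℝ) * Y + Y ≤ len := by exact_mod_cast h5
    have : (z m : ℝ) ≤ T + len := by linarith
    exact_mod_cast this

end Pool.Agent.W315.LV
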