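import Pool.Agent.W523.LV.Stmts
import Pool.Agent.H469R10.HO.Stmts
import Pool.Agent.W315.LV.PartA

/-!
# LV-PART: partitions of the cells into blocks with many primes
-/

set_option autoImplicit false

open Finset Filter

namespace Pool.Agent.W315.LV

open Pool.Agent.W523.LV
open Pool.Agent.H96R3.BC (CC mem_CC)
open Pool.Agent.H469R10.HO (Hoheisel)

theorem pw (a b C : ℝ) (hab : a < b) : ∀ᶠ x : ℝ in atTop, C * x ^ a ≤ x ^ b := by
  have h1 : Tendsto (fun x : ℝ => x ^ (b - a)) atTop atTop := tendsto_rpow_atTop (by linarith)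
  filter_upwards [h1.eventually_ge_atTop C, eventually_gt_atTop (0 : ℝ)] with x hx hx0
  have : x ^ b = x ^ (b - a) * x ^ a := by
    rw [← Real.rpow_add hx0]
    ring_nf
  rw [this]
  exact mul_le_mul_of_nonneg_right hx (Real.rpow_nonneg hx0.le _)

theorem two_mul_rpow (x a : ℝ) (hx : 0 ≤ x) (ha0 : 0 ≤ a) (ha1 : a ≤ 1) :
    (2 * x) ^ a ≤ 2 * x ^ a := by
  rw [Real.mul_rpow (by norm_num) hx]
  have : (2 : ℝ) ^ a ≤ 2 ^ (1 : ℝ) := Real.rpow_le_rpow_of_exponent_le (by norm_num) ha1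
  rw [Real.rpow_one] at this
  exact mul_le_mul_of_nonneg_right this (Real.rpow_nonneg hx _)

/-- the analytic facts, in the variable `T` -/
theorem facts (δ θ η κ : ℝ) (hδ0 : 0 < δ) (hδ1 : δ < 1) (hθ1 : θ < 1) (hθδ : 1 - δ < θ)
    (hθ2 : 1 / 2 < θ) (hη : 0 < η) (hη1 : η ≤ 1 / 100) (hκ : 0 < κ) :
    ∀ᶠ T : ℝ in atTop, 1 ≤ T ∧ (2 * T) ^ (1 - δ) ≤ T ^ θ ∧ (2 * T) ^ (1 / 2 : ℝ) ≤ T ^ θ ∧
      4 * T ^ θ ≤ T ∧ 2 * (2 * T) ^ (η / 2) ≤ T ^ η ∧ (2 * T) ^ (2 / 5 : ℝ) ≤ T ^ (41 / 100 : ℝ) ∧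
      Real.log (2 * T) ≤ κ * T ^ η := by
  filter_upwards [eventually_ge_atTop (1 : ℝ), pw (1 - δ) θ 2 hθδ, pw (1 / 2) θ 2 hθ2,
    pw θ 1 4 hθ1, pw (η / 2) η 4 (by linarith), pw (2 / 5) (41 / 100) 2 (by norm_num),
    pw (η / 2) η (4 / (η * κ)) (by linarith)] with T h1 h2 h3 h4 h5 h6 h7
  have h0 : 0 ≤ T := by linarith
  refine ⟨h1, ?_, ?_, ?_, ?_, ?_, ?_⟩
  · exact (two_mul_rpow T _ h0 (by linarith) (by linarith)).trans h2
  · exact (two_mul_rpow T _ h0 (by norm_num) (by norm_num)).trans h3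
  · rwa [Real.rpow_one] at h4
  · have := two_mul_rpow T (η / 2) h0 (by linarith) (by linarith)
    linarith
  · exact (two_mul_rpow T _ h0 (by norm_num) (by norm_num)).trans h6
  · have h8 := Real.log_le_rpow_div (x := 2 * T) (by linarith) (ε := η / 2) (by linarith)
    have h9 := two_mul_rpow T (η / 2) h0 (by linarith) (by linarith)
    have h10 : (2 * T) ^ (η / 2) / (η / 2) ≤ (4 / η) * T ^ (η / 2) := by
      rw [div_le_iff₀ (by linarith)]
      calc (2 * T) ^ (η / 2) ≤ 2 * T ^ (η / 2) := h9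
        _ = 4 / η * T ^ (η / 2) * (η / 2) := by
          field_simp
          ring
    refine h8.trans (h10.trans ?_)
    calc (4 / η) * T ^ (η / 2) = κ * (4 / (η * κ) * T ^ (η / 2)) := by
          field_simp
      _ ≤ κ * T ^ η := mul_le_mul_of_nonneg_left h7 hκ.le

theorem cell_len (Q J : ℕ) (hQ : 1 ≤ Q) : J ^ (2 * Q) + J ^ (2 * Q - 1) ≤ (J + 1) ^ (2 * Q) := by
  obtain ⟨m, hm⟩ : ∃ m, 2 * Q = m + 1 := ⟨2 * Q - 1, by omega⟩
  have h1 : 2 * Q - 1 = m := by omega
  rw [h1, hm]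
  calc J ^ (m + 1) + J ^ m = J ^ m * (J + 1) := by ring
    _ ≤ (J + 1) ^ m * (J + 1) := Nat.mul_le_mul_right _ (Nat.pow_le_pow_left (by omega) _)
    _ = _ := by ring

theorem ev_two (Q : ℕ) : ∀ᶠ J : ℕ in atTop, (J + 1) ^ (2 * Q) ≤ 2 * J ^ (2 * Q) := by
  have h : Tendsto (fun J : ℕ => (1 + 1 / (J : ℝ)) ^ (2 * Q)) atTop (nhds ((1 + 0) ^ (2 * Q))) :=
    (tendsto_const_nhds.add tendsto_one_div_atTop_nhds_zero_nat).pow _
  have h2 : ∀ᶠ J : ℕ in atTop, (1 + 1 / (J : ℝ)) ^ (2 * Q) < 2 := by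
    apply h.eventually_lt_const
    norm_num
  filter_upwards [h2, eventually_ge_atTop 1] with J hJ hJ1
  have hJr : (0 : ℝ) < J := by exact_mod_cast hJ1
  have e : ((J : ℝ) + 1) ^ (2 * Q) = (J : ℝ) ^ (2 * Q) * (1 + 1 / (J : ℝ)) ^ (2 * Q) := by
    rw [← mul_pow]
    congr 1
    field_simp
  have h3 : ((J : ℝ) + 1) ^ (2 * Q) ≤ 2 * (J : ℝ) ^ (2 * Q) := by
    rw [e]
    have : (0 : ℝ) < (J : ℝ) ^ (2 * Q) := by positivity
    nlinarith
  exact_mod_cast h3

theorem taskPart_of (hH : Hoheisel) (h : TaskNest) : TaskPart := by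
  obtain ⟨δ, κ, hδ0, hδ1, hκ, XH, hXH2, hHo⟩ := hH
  set θ : ℝ := (1 + max (1 - δ) (1 / 2)) / 2 with hθ
  have hmax1 : max (1 - δ) (1 / 2) < 1 := max_lt (by linarith) (by norm_num)
  have hmaxa : 1 - δ ≤ max (1 - δ) (1 / 2) := le_max_left _ _
  have hmaxb : (1 / 2 : ℝ) ≤ max (1 - δ) (1 / 2) := le_max_right _ _
  have hθ1 : θ < 1 := by rw [hθ]; linarith
  have hθδ : 1 - δ < θ := by rw [hθ]; linarith
  have hθ2 : 1 / 2 < θ := by rw [hθ]; linarith
  refine ⟨⌈1 / (1 - θ)⌉₊ + 1, ?_⟩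
  intro Q hQ N hN η ε₀ hη hη1 hε₀
  have hQ1 : 1 ≤ Q := by omega
  have hQr : 1 / (1 - θ) ≤ Q := by
    have h1 : 1 / (1 - θ) ≤ (⌈1 / (1 - θ)⌉₊ : ℝ) := Nat.le_ceil _
    have h2 : ((⌈1 / (1 - θ)⌉₊ : ℕ) : ℝ) ≤ Q := by
      exact_mod_cast (by omega : ⌈1 / (1 - θ)⌉₊ ≤ Q)
    linarith
  have hQpos : (0 : ℝ) < Q := by exact_mod_cast hQ1
  have hQθ : 1 ≤ Q * (1 - θ) := by
    rw [div_le_iff₀ (by linarith)] at hQr
    exact hQr
  have hexp : θ < (2 * (Q : ℝ) - 1) / (2 * Q) := by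
    rw [lt_div_iff₀ (by linarith)]
    nlinarith
  obtain ⟨XN, hNe⟩ := h (η / 2) κ (by linarith) (by linarith) hκ
  set C : ℝ := max (16 * N) (2 / ε₀) with hC
  have hT : Tendsto (fun J : ℕ => ((J ^ (2 * Q) : ℕ) : ℝ)) atTop atTop := by
    apply tendsto_natCast_atTop_atTop.comp
    exact tendsto_pow_atTop (by omega)
  have hTn : Tendsto (fun J : ℕ => J ^ (2 * Q)) atTop atTop := tendsto_pow_atTop (by omega)
  have hev : ∀ᶠ J : ℕ in atTop, ∃ (L : ℕ) (b z : ℕ → ℕ), Part Q N η ε₀ J L b z := by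
    filter_upwards [hT.eventually (facts δ θ η κ hδ0 hδ1 hθ1 hθδ hθ2 hη hη1 hκ),
      hT.eventually (pw θ ((2 * (Q : ℝ) - 1) / (2 * Q)) (2 * C) hexp),
      hTn.eventually_ge_atTop (max XH XN), ev_two Q, eventually_ge_atTop 1] with J hf hlenT hTX htwo hJ1
    obtain ⟨f1, f2, f3, f4, f5, f6, f7⟩ := hf
    set T : ℕ := J ^ (2 * Q) with hTdef
    set len : ℕ := (J + 1) ^ (2 * Q) - T with hlendef
    have hJr : (0 : ℝ) < J := by exact_mod_cast hJ1
    have hTr : (0 : ℝ) < (T : ℝ) := by linarith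
    have hTle : T ≤ (J + 1) ^ (2 * Q) := Nat.pow_le_pow_left (by omega) _
    have hTlen : T + len = (J + 1) ^ (2 * Q) := by omega
    have hlenT' : len ≤ T := by omega
    have hlenJ : J ^ (2 * Q - 1) ≤ len := by
      have := cell_len Q J hQ1
      omega
    have hcard : (CC Q J).card = len := by
      unfold CC
      rw [Nat.card_Ioc]
    set Y : ℕ := ⌈(T : ℝ) ^ θ⌉₊ with hY
    have hTθ1 : 1 ≤ (T : ℝ) ^ θ := Real.one_le_rpow f1 (by linarith)
    have hY1 : (T : ℝ) ^ θ ≤ Y := Nat.le_ceil _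
    have hY2 : (Y : ℝ) ≤ 2 * (T : ℝ) ^ θ := by
      have := Nat.ceil_lt_add_one (a := (T : ℝ) ^ θ) (by linarith)
      linarith
    have hYpos : 0 < Y := by
      have : (0 : ℝ) < Y := by linarith
      exact_mod_cast this
    have hYr : (0 : ℝ) < Y := by exact_mod_cast hYpos
    have hlen2 : C * Y ≤ len := by
      have e1 : (T : ℝ) ^ ((2 * (Q : ℝ) - 1) / (2 * Q)) = (J : ℝ) ^ (2 * Q - 1) := by
        rw [hTdef]
        push_cast
        rw [← Real.rpow_natCast, ← Real.rpow_mul hJr.le, ← Real.rpow_natCast (J : ℝ) (2 * Q - 1)]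
        congr 1
        rw [Nat.cast_sub (by omega)]
        push_cast
        field_simp
      rw [e1] at hlenT
      have e2 : (J : ℝ) ^ (2 * Q - 1) ≤ len := by exact_mod_cast hlenJ
      have hCpos : 0 ≤ C := by
        rw [hC]
        exact le_max_of_le_left (by positivity)
      calc C * Y ≤ C * (2 * (T : ℝ) ^ θ) := mul_le_mul_of_nonneg_left hY2 hCpos
        _ = 2 * C * (T : ℝ) ^ θ := by ring
        _ ≤ (J : ℝ) ^ (2 * Q - 1) := hlenT
        _ ≤ len := e2
    have h16 : 16 * N * Y ≤ len := by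
      have : (16 * N : ℝ) * Y ≤ len := by
        refine le_trans ?_ hlen2
        exact mul_le_mul_of_nonneg_right (le_max_left _ _) hYr.le
      exact_mod_cast this
    have hS : 2 * (Y : ℝ) ≤ ε₀ * len := by
      have h1 : 2 / ε₀ * Y ≤ len := by
        refine le_trans ?_ hlen2
        exact mul_le_mul_of_nonneg_right (le_max_right _ _) hYr.le
      have h2 : 2 / ε₀ * Y = 2 * Y / ε₀ := by ring
      rw [h2, div_le_iff₀ hε₀] at h1
      linarith
    have hYT : 2 * (Y : ℝ) ≤ T := by linarith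
    set E : ℝ := (T : ℝ) ^ η with hE
    set E₂ : ℝ := (2 * (T : ℝ)) ^ (η / 2) with hE₂
    have hE₂0 : 0 ≤ E₂ := Real.rpow_nonneg (by linarith) _
    have hE2 : 2 * E₂ ≤ E := f5
    have hE0 : 0 ≤ E := by linarith
    -- Hoheisel for intervals with `T ≤ X ≤ 2 T`, `Y ≤ len ≤ 2 Y`
    have hHoh : ∀ X y : ℕ, T ≤ X → X ≤ 2 * T → Y ≤ y → y ≤ 2 * Y →
        κ * y / Real.log X ≤ (((Ioc X (X + y)).filter Nat.Prime).card : ℝ) := by
      intro X y hX1 hX2 hy1 hy2
      have hXr1 : (T : ℝ) ≤ X := by exact_mod_cast hX1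
      have hXr2 : (X : ℝ) ≤ 2 * T := by exact_mod_cast hX2
      have hyr1 : (Y : ℝ) ≤ y := by exact_mod_cast hy1
      have hyr2 : (y : ℝ) ≤ 2 * Y := by exact_mod_cast hy2
      apply hHo X y (by omega)
      · calc (X : ℝ) ^ (1 - δ) ≤ (2 * T) ^ (1 - δ) :=
              Real.rpow_le_rpow (by linarith) hXr2 (by linarith)
          _ ≤ (T : ℝ) ^ θ := f2
          _ ≤ y := by linarith
      · have : (y : ℝ) ≤ X := by linarith
        exact_mod_cast this
    have hcnt : ∀ x y : ℕ, T ≤ x → y ≤ T + len → x + Y ≤ y → y ≤ x + 2 * Y →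
        (y : ℝ) - x ≤ E * cnt x y := by
      intro x y hx hy hxy hxy2
      obtain ⟨w, hw⟩ : ∃ w, y = x + w := ⟨y - x, by omega⟩
      subst hw
      have hh := hHoh x w hx (by omega) (by omega) (by omega)
      have hxr1 : (T : ℝ) ≤ x := by exact_mod_cast hx
      have hx2 : x ≤ 2 * T := by omega
      have hxr2 : (x : ℝ) ≤ 2 * T := by exact_mod_cast hx2
      have hx1 : 1 < x := by
        have : 2 ≤ XH := hXH2
        omega
      have hx1r : (1 : ℝ) < x := by exact_mod_cast hx1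
      have hlogpos : 0 < Real.log x := Real.log_pos hx1r
      have hlog : Real.log x ≤ κ * E := (Real.log_le_log (by linarith) hxr2).trans f7
      unfold cnt
      push_cast
      rw [div_le_iff₀ hlogpos] at hh
      have hc0 : (0 : ℝ) ≤ (((Ioc x (x + w)).filter Nat.Prime).card : ℝ) := Nat.cast_nonneg _
      have h5 : κ * w ≤ (((Ioc x (x + w)).filter Nat.Prime).card : ℝ) * (κ * E) :=
        hh.trans (mul_le_mul_of_nonneg_left hlog hc0)
      have h6 : κ * w ≤ κ * (E * (((Ioc x (x + w)).filter Nat.Prime).card : ℝ)) := by linarith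
      have h7 := le_of_mul_le_mul_left h6 hκ
      linarith
    -- crossing points
    have hex : ∀ m : ℕ, ∃ zm : ℕ, m < 2 * N →
        ((Y : ℝ) ≤ E₂ * ((zm : ℝ) - ((T + ((2 * m + 1) * len / (4 * N * Y)) * Y : ℕ) : ℝ)) ∧
        (Y : ℝ) ≤ E₂ * (((T + ((2 * m + 1) * len / (4 * N * Y)) * Y : ℕ) : ℝ) + Y - zm)) ∧
        NestOut E₂ ((T : ℝ) ^ (41 / 100 : ℝ)) (T + ((2 * m + 1) * len / (4 * N * Y)) * Y) Y zm := by
      intro m
      by_cases hm : m < 2 * N
      swap
      · exact ⟨0, fun h => absurd h hm⟩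
      have h4 : 0 < 4 * N * Y := by positivity
      set k := (2 * m + 1) * len / (4 * N * Y) with hk
      have hk1 : k * (4 * N * Y) ≤ (2 * m + 1) * len := Nat.div_mul_le_self _ _
      have hkY : k * Y ≤ len := by
        have h2 : (2 * m + 1) * len ≤ (4 * N) * len := Nat.mul_le_mul_right _ (by omega)
        have h3 : 4 * N * (k * Y) ≤ 4 * N * len := by
          calc 4 * N * (k * Y) = k * (4 * N * Y) := by ring
            _ ≤ _ := hk1
            _ ≤ _ := h2
        exact Nat.le_of_mul_le_mul_left h3 (by omega)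
      set X := T + k * Y with hX
      have hXT : T ≤ X := by omega
      have hX2T : X ≤ 2 * T := by omega
      have hXr1 : (T : ℝ) ≤ X := by exact_mod_cast hXT
      have hXr2 : (X : ℝ) ≤ 2 * T := by exact_mod_cast hX2T
      have hYX : Y ≤ X := by
        have : (Y : ℝ) ≤ X := by linarith
        exact_mod_cast this
      have hXE : (X : ℝ) ^ (η / 2) ≤ E₂ := Real.rpow_le_rpow (by linarith) hXr2 (by linarith)
      obtain ⟨L, b, i₀, hi0, hiL, hb0, hbL, hmono, hmany, hfar, hlo, hhi⟩ :=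
        hNe X Y (by omega)
          (by
            calc (X : ℝ) ^ (1 / 2 : ℝ) ≤ (2 * T) ^ (1 / 2 : ℝ) :=
                  Real.rpow_le_rpow (by linarith) hXr2 (by norm_num)
              _ ≤ (T : ℝ) ^ θ := f3
              _ ≤ Y := hY1) hYX (hHoh X Y hXT hX2T le_rfl (by omega))
      have hbi0 : X ≤ b i₀ := by
        rw [← hb0]
        exact mono_le hmono 0 i₀ (by omega) hiL.le
      have hbiL : b i₀ ≤ X + Y := by
        rw [← hbL]
        exact mono_le hmono i₀ L hiL.le le_rfl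
      have hbi0r : (X : ℝ) ≤ b i₀ := by exact_mod_cast hbi0
      have hbiLr : (b i₀ : ℝ) ≤ X + Y := by exact_mod_cast hbiL
      refine ⟨b i₀, fun _ => ⟨⟨?_, ?_⟩, ?_⟩⟩
      · exact hlo.trans (mul_le_mul_of_nonneg_right hXE (by linarith))
      · exact hhi.trans (mul_le_mul_of_nonneg_right hXE (by linarith))
      · refine ⟨L, b, i₀, hiL.le, rfl, hb0, hbL, hmono, ?_, ?_⟩
        · intro i hi
          exact (hmany i hi).trans (mul_le_mul_of_nonneg_right hXE (Nat.cast_nonneg _))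
        · intro i hi
          rcases hfar i hi with hh | hh
          · left
            calc ((b (i + 1) : ℝ) - b i) ≤ (X : ℝ) ^ (2 / 5 : ℝ) := hh
              _ ≤ (2 * T) ^ (2 / 5 : ℝ) := Real.rpow_le_rpow (by linarith) hXr2 (by norm_num)
              _ ≤ _ := f6
          · right
            exact ⟨hh.1.trans (mul_le_mul_of_nonneg_right hXE (abs_nonneg _)),
              hh.2.trans (mul_le_mul_of_nonneg_right hXE (abs_nonneg _))⟩
    choose z hz using hex
    obtain ⟨hch, hzn⟩ := core N Y len T E E₂ (ε₀ * len) ((T : ℝ) ^ (41 / 100 : ℝ)) hN hYpos h16 hS hE₂0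
      hE2 z (fun m hm => (hz m hm).1) (fun m hm => (hz m hm).2) hcnt
    obtain ⟨L, b, hb0, hbL, hb⟩ := chain_fun hch
    have hTcast : (J : ℝ) ^ (2 * Q) = (T : ℝ) := by
      rw [hTdef]
      push_cast
      ring
    have hmono : ∀ i, i < L → b i < b (i + 1) := fun i hi => (hb i hi).1
    refine ⟨L, b, z, ?_⟩
    refine ⟨hb0, by rw [hbL, hTlen], hmono, ?_, ?_, ?_, ?_, ?_⟩
    · intro i hi
      rw [hTcast]
      exact (hb i hi).2.1
    · intro i hi
      rw [hcard]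
      exact (hb i hi).2.2.1
    · intro m hm
      have h1 := (hzn m hm).2.1
      have h2 := (hzn m hm).2.2
      -- the largest `i` with `b i ≤ z m`
      by_contra hc
      push Not at hc
      have key : ∀ i, i ≤ L → b i < z m := by
        intro i
        induction i with
        | zero =>
          intro h0
          have := hc 0 h0
          rw [hb0] at this ⊢
          omega
        | succ i ih =>
          intro hi
          have h3 := ih (by omega)
          have h5 := (hb i (by omega)).2.2.2.1 m hm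
          have h6 := hc (i + 1) hi
          omega
      have := key L le_rfl
      rw [hbL] at this
      omega
    · intro m hm
      rw [hTcast, hcard]
      refine (hzn m hm).1.trans ?_
      linarith
    · intro i hi
      rw [hTcast]
      exact (hb i hi).2.2.2.2
  obtain ⟨J₁, hJ₁⟩ := eventually_atTop.1 hev
  exact ⟨J₁, hJ₁⟩

end Pool.Agent.W315.LV
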