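import Pool.Agent.W315.LV.Part
import Pool.Agent.H469R10.HO.Final

/-!
# LV-PART: final form
-/

set_option autoImplicit false

namespace Pool.Agent.W315.LV

open Pool.Agent.W523.LV

theorem taskPart (h : TaskNest) : TaskPart := taskPart_of Pool.Agent.H469R10.HO.hoheisel h

end Pool.Agent.W315.LV
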